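import Mathlib
import Pool.Agent.W811.LW.Stm

set_option autoImplicit false
open Finset Filter Topology
open scoped ENNReal

namespace Pool.Agent.W911.LW
open Pool.Agent.W811.LW

lemma zp1 {x : ℝ} (hx : x ≠ 0) (m j : ℕ) :
    x ^ (-2 * ((m : ℤ) - (j : ℤ))) = x ^ (2 * j) / x ^ (2 * m) := by
  rw [show (-2 * ((m : ℤ) - (j : ℤ))) = ((2 * j : ℕ) : ℤ) - ((2 * m : ℕ) : ℤ) by push_cast; ring,
    zpow_sub₀ hx, zpow_natCast, zpow_natCast]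

lemma rs_nonneg (y : ℝ) : 0 ≤ rs y := by unfold rs; positivity

lemma et_nonneg (G : ℕ) (i : ℤ) : 0 ≤ et (G : ℝ) i := by
  unfold et; split_ifs <;> positivity

lemma rs_step {D y y' : ℝ} (hD : 0 < D) (hy : 0 < y) (hy' : 0 < y') (h : y ≤ 2 * D ^ 2 * y') :
    rs y' ≤ 2 * D * rs y := by
  have h1 : Real.sqrt y ≤ 2 * D * Real.sqrt y' := by
    have h2 : y ≤ (2 * D * Real.sqrt y') ^ 2 := by
      rw [mul_pow, mul_pow, Real.sq_sqrt hy'.le]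
      have : 0 < D ^ 2 * y' := by positivity
      nlinarith
    calc Real.sqrt y ≤ Real.sqrt ((2 * D * Real.sqrt y') ^ 2) := Real.sqrt_le_sqrt h2
      _ = 2 * D * Real.sqrt y' := Real.sqrt_sq (by positivity)
  have h3 : 0 < Real.sqrt y := Real.sqrt_pos.2 hy
  have h4 : 0 < Real.sqrt y' := Real.sqrt_pos.2 hy'
  unfold rs
  rw [inv_eq_one_div, ← div_eq_mul_inv, div_le_div_iff₀ h4 h3]
  linarith

lemma rs_G (G : ℕ) (hG : 1000 ≤ G) : 16 * rs ((G : ℝ) ^ 4) ≤ 1 / 48 := by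
  have hG' : (1000 : ℝ) ≤ (G : ℝ) := by exact_mod_cast hG
  have h1 : Real.sqrt ((G : ℝ) ^ 4) = (G : ℝ) ^ 2 := by
    rw [show (G : ℝ) ^ 4 = ((G : ℝ) ^ 2) ^ 2 by ring, Real.sqrt_sq (by positivity)]
  unfold rs
  rw [h1, ← div_eq_mul_inv, div_le_div_iff₀ (by positivity) (by norm_num)]
  nlinarith

/-- exchange of the finite sum and the series -/
lemma swap (N : ℕ) (hN : 0 < N) (f : ℕ → ℕ → ℝ) (hf : ∀ d m, 0 ≤ f d m) :
    ∑ d ∈ range N, ∑' m, ENNReal.ofReal (f d m) =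
      (N : ℝ≥0∞) * ∑' m, ENNReal.ofReal ((1 / (N : ℝ)) * ∑ d ∈ range N, f d m) := by
  have hN' : (0 : ℝ) < N := by exact_mod_cast hN
  rw [← Summable.tsum_finsetSum (fun i _ => ENNReal.summable), ← ENNReal.tsum_mul_left]
  refine tsum_congr fun m => ?_
  rw [← ENNReal.ofReal_sum_of_nonneg (fun i _ => hf i m)]
  have h1 : (N : ℝ≥0∞) = ENNReal.ofReal (N : ℝ) := (ENNReal.ofReal_natCast N).symm
  rw [h1, ← ENNReal.ofReal_mul hN'.le]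
  congr 1
  field_simp

theorem sv1 (h : CLV1) (hp : POS) (hd : DVL) (hk : KERN) : SV1 := by
  intro G c0 hG hc0 hc1
  have hGr : (1000 : ℝ) ≤ (G : ℝ) := by exact_mod_cast hG
  have hGpos : (0 : ℝ) < (G : ℝ) := by linarith
  have hD1 : (1 : ℝ) ≤ (G : ℝ) ^ 4 := one_le_pow₀ (by linarith)
  have hDpos : (0 : ℝ) < (G : ℝ) ^ 4 := by positivity
  have hDne : (G : ℝ) ^ 4 ≠ 0 := hDpos.ne'
  have hD2 : 2 ≤ G ^ 4 := by
    calc 2 ≤ G := by omega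
      _ = G ^ 1 := (pow_one G).symm
      _ ≤ G ^ 4 := Nat.pow_le_pow_right (by omega) (by norm_num)
  have hcast : ((G ^ 4 : ℕ) : ℝ) = (G : ℝ) ^ 4 := by push_cast; rfl
  have hc5 : (0 : ℝ) < c0 / (1024 * ((G : ℝ) ^ 4) ^ 10) := by positivity
  have hP10 : (1 : ℝ) ≤ ((G : ℝ) ^ 4) ^ 10 := one_le_pow₀ hD1
  have hP4 : (1 : ℝ) ≤ ((G : ℝ) ^ 4) ^ 4 := one_le_pow₀ hD1
  obtain ⟨M, hM, hM2⟩ := hk G (c0 / (1024 * ((G : ℝ) ^ 4) ^ 10)) (128 * ((G : ℝ) ^ 4) ^ 10)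
    (16 * ((G : ℝ) ^ 4) ^ 4) (2 * (G : ℝ) ^ 4) hG hc5 (by linarith) (by linarith) (by linarith)
  refine ⟨M, hM, ?_⟩
  intro α β j t hbad hba
  have hNpos : 0 < (G ^ 4) ^ 2 := by positivity
  have hNr : (((G ^ 4) ^ 2 : ℕ) : ℝ) = ((G : ℝ) ^ 4) ^ 2 := by push_cast; rfl
  unfold FV FW
  rw [swap ((G ^ 4) ^ 2) hNpos (fun d m => et (G : ℝ) ((m : ℤ) - (j : ℤ)) *
    rs (yV ((G : ℝ) ^ 4) α j (t + 1) (β + (d : ℝ) / ((G : ℝ) ^ 4) ^ (2 * (j + t) + 2)) m))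
    (fun d m => mul_nonneg (et_nonneg _ _) (rs_nonneg _))]
  refine mul_le_mul_right ?_ _
  have hpos : ∀ m, (famV ((G : ℝ) ^ 4) α m).Nonempty ∧ (famW ((G : ℝ) ^ 4) m).Nonempty ∧
      0 < yV ((G : ℝ) ^ 4) α j t β m ∧ 0 < yW ((G : ℝ) ^ 4) α j t β m := by
    intro m
    have := hp (G ^ 4) α c0 β j t m hD2 hc0 hbad
    rw [hcast] at this
    exact this
  refine hM2 (fun m => (m : ℤ) - (j : ℤ)) (fun m => (j : ℤ) - (m : ℤ))
    (fun m => yV ((G : ℝ) ^ 4) α j t β m) (fun m => yW ((G : ℝ) ^ 4) α j t β m)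
    (fun m => (1 / (((G ^ 4) ^ 2 : ℕ) : ℝ)) * ∑ d ∈ range ((G ^ 4) ^ 2),
      et (G : ℝ) ((m : ℤ) - (j : ℤ)) *
        rs (yV ((G : ℝ) ^ 4) α j (t + 1) (β + (d : ℝ) / ((G : ℝ) ^ 4) ^ (2 * (j + t) + 2)) m))
    ?_ (fun m => (hpos m).2.2.1) (fun m => (hpos m).2.2.2) ?_
  · intro a b hab
    simp only at hab
    omega
  · intro m
    have hy := (hpos m).2.2.1
    have he := et_nonneg G ((m : ℤ) - (j : ℤ))
    have hry := rs_nonneg (yV ((G : ℝ) ^ 4) α j t β m)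
    have hcl := h (G ^ 4) c0 α β j t m hD2 hc0 hbad
    rw [hcast] at hcl
    obtain ⟨hA, hB⟩ := hcl
    rw [← Finset.mul_sum, hNr]
    have hN2 : (0 : ℝ) < ((G : ℝ) ^ 4) ^ 2 := by positivity
    rcases hB with hB | ⟨v, hv, w, hw, hcr, hnv, hnw⟩
    · left
      have h1 : (1 / ((G : ℝ) ^ 4) ^ 2) * (et (G : ℝ) ((m : ℤ) - (j : ℤ)) *
          ∑ d ∈ range ((G ^ 4) ^ 2),
            rs (yV ((G : ℝ) ^ 4) α j (t + 1) (β + (d : ℝ) / ((G : ℝ) ^ 4) ^ (2 * (j + t) + 2)) m))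
          ≤ (1 / ((G : ℝ) ^ 4) ^ 2) * (et (G : ℝ) ((m : ℤ) - (j : ℤ)) *
            (((G : ℝ) ^ 4) ^ 2 * (16 * rs ((G : ℝ) ^ 4) * rs (yV ((G : ℝ) ^ 4) α j t β m)))) := by
        gcongr
      refine h1.trans ?_
      have h2 : (1 / ((G : ℝ) ^ 4) ^ 2) * (et (G : ℝ) ((m : ℤ) - (j : ℤ)) *
            (((G : ℝ) ^ 4) ^ 2 * (16 * rs ((G : ℝ) ^ 4) * rs (yV ((G : ℝ) ^ 4) α j t β m))))
          = (16 * rs ((G : ℝ) ^ 4)) * (et (G : ℝ) ((m : ℤ) - (j : ℤ)) *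
            rs (yV ((G : ℝ) ^ 4) α j t β m)) := by
        field_simp
      rw [h2]
      exact mul_le_mul_of_nonneg_right (rs_G G hG) (mul_nonneg he hry)
    · right
      refine ⟨?_, ?_⟩
      · have h1 : ∑ d ∈ range ((G ^ 4) ^ 2),
            rs (yV ((G : ℝ) ^ 4) α j (t + 1) (β + (d : ℝ) / ((G : ℝ) ^ 4) ^ (2 * (j + t) + 2)) m)
            ≤ ((G : ℝ) ^ 4) ^ 2 * (2 * (G : ℝ) ^ 4 * rs (yV ((G : ℝ) ^ 4) α j t β m)) := by
          calc _ ≤ ∑ _d ∈ range ((G ^ 4) ^ 2),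
              (2 * (G : ℝ) ^ 4 * rs (yV ((G : ℝ) ^ 4) α j t β m)) := by
                refine Finset.sum_le_sum fun d hdm => ?_
                obtain ⟨ha, hb⟩ := hA d (Finset.mem_range.1 hdm)
                exact rs_step hDpos hy ha hb
            _ = _ := by
                rw [Finset.sum_const, Finset.card_range, nsmul_eq_mul, hNr]
        have h2 : (1 / ((G : ℝ) ^ 4) ^ 2) * (et (G : ℝ) ((m : ℤ) - (j : ℤ)) *
          ∑ d ∈ range ((G ^ 4) ^ 2),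
            rs (yV ((G : ℝ) ^ 4) α j (t + 1) (β + (d : ℝ) / ((G : ℝ) ^ 4) ^ (2 * (j + t) + 2)) m))
          ≤ (1 / ((G : ℝ) ^ 4) ^ 2) * (et (G : ℝ) ((m : ℤ) - (j : ℤ)) *
            (((G : ℝ) ^ 4) ^ 2 * (2 * (G : ℝ) ^ 4 * rs (yV ((G : ℝ) ^ 4) α j t β m)))) := by
          gcongr
        refine h2.trans (le_of_eq ?_)
        field_simp
      · have hdv := hd (G ^ 4) c0 α β j t m (yV ((G : ℝ) ^ 4) α j t β m) v w hD2 hc0 hc1 hbad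
        rw [hcast] at hdv
        rw [zp1 hDne]
        rcases hdv hba hy hv hw hcr hnv hnw with hh | ⟨m', h1, h2⟩
        · left; exact hh
        · right
          refine ⟨m', ?_, ?_⟩
          · rw [zp1 hDne]; exact h1
          · exact h2

end Pool.Agent.W911.LW
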